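import Pool.Agent.Results.MP_5d630e_co.LinearBound

/-!
# Every binary word of length `n` has at least `c n` distinct abelian squares

Inequivalent abelian squares are distinct, so this follows from the linear lower bound for the
number of classes (`Pool.Agent.Results.MP_5d630e_co.LinearBound`, `Pool.Agent.H188.LC.Main`).
-/

set_option autoImplicit false

namespace Pool.Agent.Results.MP_c8175e_co.LinearBound

/-- Parikh vector of a binary word (`true` = a, `false` = b). -/
def parikh (u : List Bool) : ℕ × ℕ := (u.count true, u.count false)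

/-- The distinct abelian squares of `w`: the words `uv` with `u`, `v` nonempty,
`P(u) = P(v)`, that are factors of `w`. -/
def abSquares (w : List Bool) : Set (List Bool) :=
  {x | ∃ u v : List Bool, x = u ++ v ∧ u ≠ [] ∧ v ≠ [] ∧ parikh u = parikh v ∧ x <:+: w}

/-- `MDL(n)`: the least number of distinct abelian squares in a binary word of length `n`. -/
noncomputable def MDL (n : ℕ) : ℕ :=
  sInf {k | ∃ w : List Bool, w.length = n ∧ (abSquares w).ncard = k}

theorem finite_abSquares (w : List Bool) : (abSquares w).Finite := by
  classical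
  apply Set.Finite.subset (w.sublists.toFinset.finite_toSet)
  rintro x ⟨u, v, _, _, _, _, h⟩
  rw [Finset.mem_coe, List.mem_toFinset, List.mem_sublists]
  exact h.sublist

theorem ncard_le (w : List Bool) :
    (MP_5d630e_co.LinearBound.sqClasses w).ncard ≤ (abSquares w).ncard := by
  classical
  have hsub : MP_5d630e_co.LinearBound.sqClasses w ⊆
      (fun x : List Bool => (x.count true / 2, x.count false / 2)) '' (abSquares w) := by
    rintro P ⟨u, v, hu, hv, hi, hP, hQ⟩
    have hP1 : (u.count true, u.count false) = P := hP
    have hQ1 : (v.count true, v.count false) = P := hQ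
    refine ⟨u ++ v, ⟨u, v, rfl, hu, hv, ?_, hi⟩, ?_⟩
    · show (u.count true, u.count false) = (v.count true, v.count false)
      rw [hP1, hQ1]
    · show ((u ++ v).count true / 2, (u ++ v).count false / 2) = P
      have h1 : v.count true = P.1 := congrArg Prod.fst hQ1
      have h2 : v.count false = P.2 := congrArg Prod.snd hQ1
      have h3 : u.count true = P.1 := congrArg Prod.fst hP1
      have h4 : u.count false = P.2 := congrArg Prod.snd hP1
      rw [List.count_append, List.count_append, h1, h2, h3, h4]
      refine Prod.ext ?_ ?_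
      · show (P.1 + P.1) / 2 = P.1
        omega
      · show (P.2 + P.2) / 2 = P.2
        omega
  exact le_trans (Set.ncard_le_ncard hsub ((finite_abSquares w).image _))
    (Set.ncard_image_le (finite_abSquares w))

theorem count_bound (w : List Bool) (b : Bool) :
    w.count b ≤ 53723 * (abSquares w).ncard + 2 := by
  have h1 := MP_5d630e_co.LinearBound.count_bound w b
  have h2 := ncard_le w
  omega

theorem word_bound (w : List Bool) : w.length ≤ 107446 * (abSquares w).ncard + 4 := by
  have h1 := MP_5d630e_co.LinearBound.word_bound w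
  have h2 := ncard_le w
  omega

theorem MDL_bound (n : ℕ) : n ≤ 107446 * MDL n + 4 := by
  have hne : {k | ∃ w : List Bool, w.length = n ∧ (abSquares w).ncard = k}.Nonempty :=
    ⟨_, List.replicate n true, by simp, rfl⟩
  obtain ⟨w, hw, hk⟩ := Nat.sInf_mem hne
  have := word_bound w
  rw [hk, hw] at this
  exact this

theorem MDL_le (n : ℕ) : MDL n ≤ n + 1 := by
  classical
  have h1 : MDL n ≤ (abSquares (List.replicate n true)).ncard :=
    Nat.sInf_le ⟨List.replicate n true, by simp, rfl⟩
  refine h1.trans ?_
  have hsub : abSquares (List.replicate n true) ⊆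
      ((Finset.range (n + 1)).image (fun k : ℕ => List.replicate k true) :
        Finset (List Bool)) := by
    rintro x ⟨u, v, _, _, _, _, hi⟩
    obtain ⟨m, hm, rfl⟩ := List.sublist_replicate_iff.mp hi.sublist
    rw [Finset.mem_coe, Finset.mem_image]
    exact ⟨m, Finset.mem_range.mpr (by omega), rfl⟩
  have h2 := Set.ncard_le_ncard hsub (Finset.finite_toSet _)
  rw [Set.ncard_coe_finset] at h2
  refine h2.trans (Finset.card_image_le.trans ?_)
  simp

theorem theta : (fun n : ℕ => (MDL n : ℝ)) =Θ[Filter.atTop] fun n : ℕ => (n : ℝ) := by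
  refine ⟨?_, ?_⟩
  · refine Asymptotics.IsBigO.of_bound 2 (Filter.eventually_atTop.mpr ⟨1, fun n hn => ?_⟩)
    rw [Real.norm_of_nonneg (Nat.cast_nonneg _), Real.norm_of_nonneg (Nat.cast_nonneg _)]
    have h1 := MDL_le n
    have h2 : MDL n ≤ 2 * n := by omega
    exact_mod_cast h2
  · refine Asymptotics.IsBigO.of_bound 107450 (Filter.eventually_atTop.mpr ⟨5, fun n hn => ?_⟩)
    rw [Real.norm_of_nonneg (Nat.cast_nonneg _), Real.norm_of_nonneg (Nat.cast_nonneg _)]
    have h1 := MDL_bound n
    have h2 : n ≤ 107450 * MDL n := by
      have : 1 ≤ MDL n := by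
        by_contra h
        have h0 : MDL n = 0 := by omega
        rw [h0] at h1
        omega
      omega
    exact_mod_cast h2

/-- **`MDL(n)` has the exact order of growth `n`.** Every binary word of length `n` has at least
`(n - 4) / 107446` distinct abelian squares; more precisely, if the letter `b` occurs `N` times
in `w` then `w` has at least `(N - 2) / 53723` distinct abelian squares. So `MDL(n) = Θ(n)`. -/
theorem result :
    (∀ (w : List Bool) (b : Bool), w.count b ≤ 53723 * (abSquares w).ncard + 2) ∧
    (∀ w : List Bool, w.length ≤ 107446 * (abSquares w).ncard + 4) ∧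
    (∀ n : ℕ, n ≤ 107446 * MDL n + 4) ∧
    (fun n : ℕ => (MDL n : ℝ)) =Θ[Filter.atTop] (fun n : ℕ => (n : ℝ)) :=
  ⟨count_bound, word_bound, MDL_bound, theta⟩

end Pool.Agent.Results.MP_c8175e_co.LinearBound
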